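import Mathlib
import Pool.Agent.H54.BryDefs
import Pool.Agent.H9.Bry.FIN

set_option autoImplicit false

namespace Pool.Agent.Results.MP_c00ca1_co.AbsoluteBound

open Pool.Agent.H54.Bry Pool.Agent.H9.Bry

/-- the bound: 7 for all `q`, 6 for `q ≥ 64`, 5 for `q ≥ 2 ^ 16` -/
def expBound (q : ℕ) : ℕ := if 2 ^ 16 ≤ q then 5 else if 64 ≤ q then 6 else 7

/-- Let `M` be a loopless matroid with no `M(K₄)`-minor, representable over a field with `q`
elements. Then `p(M; q ^ k) > 0` for `k = expBound q`, so the critical exponent of `M` is at most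
`expBound q ≤ 7`. -/
theorem result {F : Type*} [Field F] [Fintype F] {α : Type*} [Fintype α] (M : Matroid α)
    [M.Loopless] (hrep : RepresentableOver F M) (hK4 : ¬ HasMK4Minor M) :
    0 < charPoly M ((Fintype.card F : ℤ) ^ expBound (Fintype.card F)) ∧
      critExp M (Fintype.card F) ≤ expBound (Fintype.card F) := by
  have hpos : 0 < charPoly M ((Fintype.card F : ℤ) ^ expBound (Fintype.card F)) := by
    have hq : 2 ≤ Fintype.card F := Fintype.one_lt_card
    unfold expBound
    split_ifs with h5 h6
    · exact pos_of_density M hrep hK4 (DC2 (Fintype.card F)) 5 (by unfold DC2; omega)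
        (fun r X => density_two X) (fun X => density_two X) (num_bound_five _ h5)
    · exact pos_of_density M hrep hK4 (DC2 (Fintype.card F)) 6 (by unfold DC2; omega)
        (fun r X => density_two X) (fun X => density_two X) (num_bound_six _ h6)
    · exact pos_of_density M hrep hK4 (DC (Fintype.card F)) 7 (by unfold DC; omega)
        (fun r X => density_one X) (fun X => density_one X) (num_bound _ hq)
  refine ⟨hpos, Nat.sInf_le ⟨?_, hpos⟩⟩
  unfold expBound
  split_ifs <;> norm_num

end Pool.Agent.Results.MP_c00ca1_co.AbsoluteBound
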