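import Mathlib
import Pool.Agent.H54.BryDefs
import Pool.Agent.H15.HX.W3
import Pool.Agent.H15.HX.FIN

set_option autoImplicit false

namespace Pool.Agent.Results.MP_c00ca1_co.NoWhirl

open Pool.Agent.H54.Bry Pool.Agent.H15.HX

/-- the bound: 2 if `r ≤ q + 1` and 3 otherwise -/
def whirlBound (q r : ℕ) : ℕ := if r ≤ q + 1 then 2 else 3

/-- Let `q ≥ 5` and let `M` be a loopless matroid of rank `r` with no `M(K₄)`-minor and no
`W³`-minor, representable over a field with `q` elements. Then `p(M; q ^ k) > 0` and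
`c(M; q) ≤ k` for `k = whirlBound q r`, so the critical exponent is at most 3 in every rank and at
most 2 in rank at most `q + 1`. -/
theorem result {F : Type*} [Field F] [Fintype F] (hq : 5 ≤ Fintype.card F) {α : Type*} [Fintype α]
    (M : Matroid α) [M.Loopless] (hrep : RepresentableOver F M) (hK4 : ¬ HasMK4Minor M)
    (hW3 : ¬ HasW3Minor M) :
    0 < charPoly M ((Fintype.card F : ℤ) ^ whirlBound (Fintype.card F) (M.eRk M.E).toNat) ∧
      critExp M (Fintype.card F) ≤ whirlBound (Fintype.card F) (M.eRk M.E).toNat := by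
  have hpos : 0 < charPoly M
      ((Fintype.card F : ℤ) ^ whirlBound (Fintype.card F) (M.eRk M.E).toNat) := by
    unfold whirlBound
    split_ifs with h
    · exact hex_pos M hq hrep hK4 hW3 2 (Or.inr ⟨rfl, h⟩)
    · exact hex_pos M hq hrep hK4 hW3 3 (Or.inl rfl)
  refine ⟨hpos, Nat.sInf_le ⟨?_, hpos⟩⟩
  unfold whirlBound
  split_ifs <;> norm_num

end Pool.Agent.Results.MP_c00ca1_co.NoWhirl
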