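import Mathlib
import Pool.Agent.H54.BryDefs
import Pool.Agent.H54.BryCore

set_option autoImplicit false

namespace Pool.Agent.Results.MP_c00ca1_co.RankExponent

open Matroid Finset Pool.Agent.H54.Bry

/-- Let `q ≥ 4` and let `M` be a loopless matroid of rank `r`, representable over a field with `q`
elements and with no `M(K₄)`-minor. If `k ≥ 2` and `(r - 2)(q - 1) ≤ 2 (q^(k-1) - 1)`, that is
`r ≤ 2 + 2 (1 + q + ⋯ + q^(k-2))`, then `p(M; q^k) > 0`, so `c(M; q) ≤ k`. -/
theorem result {F : Type*} [Field F] [Fintype F] (hq4 : 4 ≤ Fintype.card F)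
    {α : Type*} [Fintype α] (M : Matroid α)
    [M.Loopless] (hrep : RepresentableOver F M) (hK4 : ¬ HasMK4Minor M) (k : ℕ) (hk : 2 ≤ k)
    (hr : ((M.eRk M.E).toNat - 2) * (Fintype.card F - 1) ≤ 2 * (Fintype.card F ^ (k - 1) - 1)) :
    0 < charPoly M ((Fintype.card F : ℤ) ^ k) ∧ critExp M (Fintype.card F) ≤ k := by
  classical
  have hpos : 0 < charPoly M ((Fintype.card F : ℤ) ^ k) := by
    apply core M hrep hK4 k
    intro J A hJ hinj hfree
    set q := Fintype.card F with hq
    obtain ⟨r, hrdef⟩ : ∃ r, r = (M.eRk M.E).toNat := ⟨_, rfl⟩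
    have hJ' : J.card < r := by omega
    rw [← hrdef] at hr
    have hqk : q ^ k = q * q ^ (k - 1) := by
      rw [← pow_succ', Nat.sub_add_cancel (by omega)]
    have hqk1 : q ≤ q ^ (k - 1) := by
      calc q = q ^ 1 := (pow_one q).symm
        _ ≤ q ^ (k - 1) := Nat.pow_le_pow_right (by omega) (by omega)
    have hnv : ∀ j, nv A j ≤ q := fun j => by
      unfold nv
      exact Finset.card_le_univ _
    rcases hl : J.toList with _ | ⟨j0, _ | ⟨j1, l⟩⟩
    · have hJ0 : J = ∅ := by simpa using hl
      subst hJ0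
      have : A.card ≤ 1 :=
        Finset.card_le_one.2 (fun w hw w' hw' => hinj w hw w' hw' (by simp))
      nlinarith
    · have hmem : ∀ j, j ∈ [j0] ↔ j ∈ J := fun j => by rw [← hl, Finset.mem_toList]
      have h := list_bound' j0 [] A (by simp) q (fun j _ => hnv j)
        (fun w hw w' hw' hww => hinj w hw w' hw' (fun j hj => hww j ((hmem j).2 hj)))
        (fun a ha b hb hab => hfree a ((hmem a).1 ha) b ((hmem b).1 hb) hab)
      simp only [List.length_nil, pow_zero, one_mul, syl] at h
      nlinarith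
    · have hmem : ∀ j, j ∈ j0 :: j1 :: l ↔ j ∈ J := fun j => by rw [← hl, Finset.mem_toList]
      have hnd : (j0 :: j1 :: l).Nodup := by rw [← hl]; exact J.nodup_toList
      have hlen : l.length + 2 = J.card := by
        rw [← Finset.length_toList, hl, List.length_cons, List.length_cons]
      rw [List.nodup_cons, List.nodup_cons] at hnd
      obtain ⟨hn0, hn1, hn2⟩ := hnd
      have hmem' : ∀ j, j ∈ insert j0 (insert j1 l.toFinset) ↔ j ∈ J := by
        intro j
        rw [← hmem]
        simp
      have h := rect_bound_two j0 j1 l.toFinset (fun h => hn0 (by simp [h]))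
        (fun h => hn0 (by simp at h; simp [h])) (fun h => hn1 (by simpa using h)) A q
        (fun j _ => hnv j)
        (fun w hw w' hw' hww => hinj w hw w' hw' (fun j hj => hww j ((hmem' j).2 hj)))
        (fun a ha b hb hab => hfree a ((hmem' a).1 ha) b ((hmem' b).1 hb) hab)
      rw [List.toFinset_card_of_nodup hn2] at h
      obtain ⟨s, hs⟩ : ∃ s, q = s + 1 := ⟨q - 1, by omega⟩
      obtain ⟨u, hu⟩ : ∃ u, q ^ (k - 1) = u + 1 := ⟨q ^ (k - 1) - 1, by omega⟩
      obtain ⟨t, ht⟩ : ∃ t, r = l.length + 3 + t := ⟨r - (l.length + 3), by omega⟩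
      have h5 : (l.length + 1 + t) * s ≤ 2 * u := by
        have h6 : r - 2 = l.length + 1 + t := by omega
        rw [h6, hu, Nat.add_sub_cancel] at hr
        rw [hs, Nat.add_sub_cancel] at hr
        exact hr
      have h7 : (l.length + 1) * s ≤ 2 * u := by nlinarith
      rw [hqk, hu]
      have h8 : q - 1 = s := by omega
      rw [h8] at h
      have h9 : 3 ≤ s := by omega
      have h10 : (l.length + 1) * s * q ≤ 2 * u * q := Nat.mul_le_mul_right _ h7
      nlinarith
  exact ⟨hpos, Nat.sInf_le ⟨by omega, hpos⟩⟩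

end Pool.Agent.Results.MP_c00ca1_co.RankExponent
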