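import Mathlib
import Pool.Agent.H54.BryDefs
import Pool.Agent.H54.BryCore

set_option autoImplicit false

namespace Pool.Agent.Results.MP_c00ca1_co.RankVsField

open Matroid Finset Pool.Agent.H54.Bry

/-- Let `M` be a loopless matroid of rank `r`, representable over a field with `q` elements and
with no `M(K₄)`-minor. If `b_{r-2} + 1 < q + 2^{r-2}`, where `b = 1, 2, 6, 42, 1806, …`
(`b_0 = 1`, `b_{m+1} = b_m (b_m + 1)`), then `p(M; q²) > 0`, so the critical exponent of `M` is at
most `2`. The condition holds for all `r ≤ 4` when `q ≥ 4`, and in general when `q ≥ b_{r-2}`. -/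
theorem result {F : Type*} [Field F] [Fintype F] {α : Type*} [Fintype α] (M : Matroid α)
    [M.Loopless] (hrep : RepresentableOver F M) (hK4 : ¬ HasMK4Minor M)
    (hr : syl ((M.eRk M.E).toNat - 2) + 1 < Fintype.card F + 2 ^ ((M.eRk M.E).toNat - 2)) :
    0 < charPoly M ((Fintype.card F : ℤ) ^ 2) ∧ critExp M (Fintype.card F) ≤ 2 := by
  classical
  have hq1 : 1 < Fintype.card F := Fintype.one_lt_card
  have hpos : 0 < charPoly M ((Fintype.card F : ℤ) ^ 2) := by
    apply core M hrep hK4 2
    intro J A hJ hinj hfree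
    set q := Fintype.card F with hq
    obtain ⟨r, hrdef⟩ : ∃ r, r = (M.eRk M.E).toNat := ⟨_, rfl⟩
    have hJ' : J.card < r := by omega
    rw [← hrdef] at hr
    have hqq : q * (q - 1) + q = q ^ 2 := by
      obtain ⟨s, hs⟩ : ∃ s, q = s + 1 := ⟨q - 1, by omega⟩
      rw [hs, Nat.add_sub_cancel]
      ring
    have hnv : ∀ j, nv A j ≤ q := fun j => by
      unfold nv
      exact Finset.card_le_univ _
    rcases hl : J.toList with _ | ⟨j0, l⟩
    · have hJ0 : J = ∅ := by simpa using hl
      subst hJ0
      have : A.card ≤ 1 :=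
        Finset.card_le_one.2 (fun w hw w' hw' => hinj w hw w' hw' (by simp))
      nlinarith
    · have hmem : ∀ j, j ∈ j0 :: l ↔ j ∈ J := fun j => by rw [← hl, Finset.mem_toList]
      have hnd : (j0 :: l).Nodup := by rw [← hl]; exact J.nodup_toList
      have hlen : l.length + 1 = J.card := by
        rw [← Finset.length_toList, hl, List.length_cons]
      have h := list_bound' j0 l A hnd q (fun j _ => hnv j)
        (fun w hw w' hw' hww => hinj w hw w' hw' (fun j hj => hww j ((hmem j).2 hj)))
        (fun a ha b hb hab => hfree a ((hmem a).1 ha) b ((hmem b).1 hb) hab)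
      have h1 : syl l.length + 2 ^ (r - 2) ≤ syl (r - 2) + 2 ^ l.length :=
        syl_mono_aux (by omega)
      have h2 : syl l.length + 1 < q + 2 ^ l.length := by omega
      have h3 : 2 ^ l.length * A.card < 2 ^ l.length * q ^ 2 := by
        have h4 : (syl l.length + 1) * q < (q + 2 ^ l.length) * q :=
          Nat.mul_lt_mul_of_pos_right h2 (by omega)
        nlinarith
      exact lt_of_mul_lt_mul_left h3 (Nat.zero_le _)
  exact ⟨hpos, Nat.sInf_le ⟨by norm_num, hpos⟩⟩

end Pool.Agent.Results.MP_c00ca1_co.RankVsField
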